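import Pool.Agent.DP.Final

/-!
# Decidable presentations without dominated elementary embeddings

Let `A` be a structure which has a decidable presentation and is not atomic over any finite tuple,
for example a countable saturated structure whose theory is not `ℵ₀`-categorical. For every
uniformly decidable sequence of structures `M 0, M 1, ...` there is a decidable presentation `N` of
`A` such that no elementary embedding of `N` into any `M j` is dominated by a computable function.
In particular `A` has infinitely many decidable presentations which are pairwise not computably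
isomorphic.
-/

namespace Pool.Agent.Results.MP_51c815_lc.DominatedEmbeddings

open Pool.Agent.DP

theorem result (L : FirstOrder.Language.{0, 0}) [Encodable (Σ n, L.Functions n)]
    [Encodable (Σ n, L.Relations n)] (A : Type) (S : L.Structure A)
    (hA : ∃ P : L.Structure ℕ, Decid P ∧ Iso S P) :
    ((∀ (k : ℕ) (w : ℕ → A), ¬ AtomicOver S k w) →
      (∀ M : ℕ → L.Structure ℕ, UDecid M → ∃ N : L.Structure ℕ, Decid N ∧ Iso S N ∧
        ∀ (j : ℕ) (g : ℕ → ℕ), Elem N (M j) g → ∀ H : ℕ → ℕ, Computable H → ∃ x, H x < g x) ∧
      ∃ N : ℕ → L.Structure ℕ, (∀ i, Decid (N i) ∧ Iso S (N i)) ∧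
        (∀ i j, j < i → ∀ g : ℕ → ℕ, Elem (N i) (N j) g → ∀ H : ℕ → ℕ, Computable H →
          ∃ x, H x < g x) ∧
        ∀ i j, i ≠ j → ∀ g : ℕ → ℕ, IsIso (N i) (N j) g → ¬ Computable g) ∧
    (Saturated S →
      (∃ (B : Type) (T : L.Structure B), Countable B ∧ ElemEquiv S T ∧ ¬ Iso S T) →
        ∀ (k : ℕ) (w : ℕ → A), ¬ AtomicOver S k w) := by
  refine ⟨fun hna => final_main hA hna, ?_⟩
  rintro hS ⟨B, T, hB, hE, hn⟩ k w
  have : Countable A := countable_of_iso hA
  exact saturated_nonatomic hS hE hn k w

end Pool.Agent.Results.MP_51c815_lc.DominatedEmbeddings
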