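import Mathlib
import Pool.Agent.BLE.FC

/-!
# The countable saturated model of a decidable uncountably categorical theory

Let `T` be a decidable complete theory (computable language, infinite models) which is categorical in
every uncountable cardinal and not categorical in `ℵ₀`.  The countable saturated model of `T` has
decidable presentations; there is an infinite sequence of them such that every isomorphism between two
of them computes the halting set (so its computable dimension is `ω`), for every uniformly decidable
family of structures there is a presentation `R` such that every function bounding an elementary map
of `R` into a member of the family computes the halting set, and any two decidable presentations are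
isomorphic by a map recursive in the halting set.

## Structure of the proof (all files in `Pool/Agent/BLE`)

1. *Syntax and semantics* (`Defs`, `Syn`, `SA`-`SG`): formulas with natural numbers as variables and
   unnested atomic formulas, Goedel numbering, counting quantifiers, substitution.
2. *Definable sets* (`Dfn`, `DA`-`DF`), *ultrapowers* (`UA`-`UE`: Los, compactness,
   `ℵ₁`-saturation of ultrapowers along nonprincipal ultrafilters on `ℕ`), *elementary subsets*
   (`LA`-`LC`).
3. *Few types* (`EA`-`EF`, `TA`): Ehrenfeucht-Mostowski models: definable closures of well-ordered
   indiscernible sequences in ultrapowers of a well-ordered expansion; the indiscernibles come from an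
   iterated ultrafilter quantifier.  By categoricity every ultrapower of a model of `T` realizes only
   countably many types over countable sets.  Consequences (`TB`-`TE`): no binary trees of definable
   sets, atoms, atomic elementary subsets over any set.
4. *No Vaughtian pairs* (`VA`-`VF`): ultrapower of the pair, countable saturated pair, an
   uncountable elementary subset (Zorn) with a countable infinite definable subset, against an
   elementary subset of the same cardinality all of whose infinite definable subsets are
   uncountable.  Elimination of the quantifier `there are infinitely many` (`VG`).
5. *Strongly minimal sets* (`GA`-`GK`): exchange, a strongly minimal formula `D` over an isolated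
   tuple, models are atomic over `D`, models of infinite dimension are saturated, the algebraic
   closure of finitely many generic elements meets `D` in an infinite set.
6. *The effective construction* (`X*`, `EffMain`, `PresMain`): a Henkin construction with generic
   elements `d_0, d_1, ...` of `D`; the invariant is a sentence with generic quantifiers.  When the
   program number `e` halts at stage `s`, a generic element `d_n` reserved for `e` becomes algebraic
   over the previous ones, by a formula which is not satisfied by tuples of numbers `≤ s` in
   `A_0, ..., A_s`.  Hence an elementary map into `A_j` has a value `> s - j` at one of finitely many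
   elements which depend computably on `e`.
7. *Exact degree* (`JA`-`JD`): back and forth with the halting set as oracle.
-/

set_option autoImplicit false

namespace Pool.Agent.Results.MP_51c815_lc.ExactDegree

open Pool.Agent.BLE

/-- Exact degree and infinite computable dimension of the countable saturated model. -/
theorem result (σ : Sig) (hσ : σ.Effective) (T : Set Fml) (hT : CompleteTheory σ T)
    (hu : UncountablyCategorical σ T) (hd : DecidableTheory T) :
    (∀ (M M' : Type) [Countable M] [Countable M'] [Nonempty M] [Nonempty M'] (S : Str M)
      (S' : Str M'), Models σ S T → Models σ S' T → OmegaSat σ S → OmegaSat σ S' →
      Isom σ S S') ∧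
    (∀ (J : ℕ → Prop) (A : ℕ → Str ℕ), UDecidable σ J A →
      ∃ R : Str ℕ, Pres σ T R ∧ ∀ j, J j → Avoids σ R (A j)) ∧
    (∃ R : ℕ → Str ℕ, (∀ n, Pres σ T (R n)) ∧ (∀ m n, m < n → Avoids σ (R n) (R m)) ∧
      (∀ m n, m ≠ n → (∀ e : ℕ ≃ ℕ, IsIso σ (R m) (R n) e → ComputesHalt e) ∧
        ¬ ComputablyIsom σ (R m) (R n))) ∧
    (∀ R R' : Str ℕ, Pres σ T R → Pres σ T R' →
      ∃ e : ℕ ≃ ℕ, IsIso σ R R' e ∧ Rc haltFn e) :=
  main_theorem σ hσ T hT hu hd

end Pool.Agent.Results.MP_51c815_lc.ExactDegree
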